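import Pool.Agent.helper37.ND.Spec

set_option autoImplicit false

/-! Row ZLM of project ND (MP_baa4d7_al). -/

namespace Pool.Agent.ND

open Pool.Agent.helper58.DC Pool.Agent.DI Pool.Agent.GR Pool.Agent.OB Pool.Agent.DR Pool.Agent.FI Pool.Agent.FI3 Pool.Agent.FI4 Pool.Agent.FI4I Pool.Agent.LE Pool.Agent.L5 Pool.Agent.NAB

section

variable {G : Type} [Group G]

theorem ZLM_pos {Z : Subgroup G} {t : ℕ} {ν : Z →* ℂˣ} {g : G} (h : g ^ t ∈ Z) : lam Z t ν g = ((ν ⟨g ^ t, h⟩ : ℂˣ) : ℂ) := by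
  unfold lam
  rw [dif_pos h]

theorem ZLM_neg {Z : Subgroup G} {t : ℕ} {ν : Z →* ℂˣ} {g : G} (h : g ^ t ∉ Z) : lam Z t ν g = 1 := by
  unfold lam
  rw [dif_neg h]

theorem ZLM_val {Z : Subgroup G} {t : ℕ} {ν : Z →* ℂˣ} {g : G} (y : Z) (h : g ^ t = y) : lam Z t ν g = ((ν y : ℂˣ) : ℂ) := by
  have h1 : g ^ t ∈ Z := by rw [h]; exact y.2
  have h2 : (⟨g ^ t, h1⟩ : Z) = y := Subtype.ext h
  rw [ZLM_pos h1, h2]

theorem ZLM_congr {Z : Subgroup G} {t : ℕ} {ν : Z →* ℂˣ} {g g' : G} (h : g ^ t = g' ^ t) : lam Z t ν g = lam Z t ν g' := by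
  by_cases h1 : g' ^ t ∈ Z
  · rw [ZLM_pos h1]
    exact ZLM_val ⟨g' ^ t, h1⟩ h
  · rw [ZLM_neg h1, ZLM_neg (by rwa [h])]

theorem ZLM_root [Finite G] {Z : Subgroup G} (ν : Z →* ℂˣ) (y : Z) : ((ν y : ℂˣ) : ℂ) ^ Nat.card Z = 1 := by
  have h1 : y ^ Nat.card Z = 1 := pow_card_eq_one'
  have h2 : (ν y) ^ Nat.card Z = 1 := by rw [← map_pow, h1, map_one]
  have h3 := congrArg (Units.val) h2
  rwa [Units.val_pow_eq_pow_val, Units.val_one] at h3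

theorem ZLM_conj [Finite G] {Z : Subgroup G} (ν : Z →* ℂˣ) (y : Z) :
    (((ν y)⁻¹ : ℂˣ) : ℂ) = (starRingEnd ℂ) ((ν y : ℂˣ) : ℂ) := by
  have h1 : ‖((ν y : ℂˣ) : ℂ)‖ = 1 :=
    Complex.norm_eq_one_of_pow_eq_one (ZLM_root ν y) (Nat.card_pos).ne'
  rw [Units.val_inv_eq_inv_val, Complex.inv_eq_conj h1]

theorem ZLM_one [Finite G] {Z : Subgroup G} {t : ℕ} (ν : Z →* ℂˣ) (g : G) :
    lam Z t ν g⁻¹ = (starRingEnd ℂ) (lam Z t ν g) ∧ lam Z t ν g * lam Z t ν g⁻¹ = 1 := by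
  by_cases h : g ^ t ∈ Z
  · have h1 : lam Z t ν g⁻¹ = (((ν ⟨g ^ t, h⟩)⁻¹ : ℂˣ) : ℂ) := by
      rw [ZLM_val (⟨g ^ t, h⟩⁻¹ : Z) (by rw [inv_pow]; rfl), map_inv]
    rw [h1, ZLM_pos h, ZLM_conj]
    refine ⟨rfl, ?_⟩
    rw [← ZLM_conj, Units.mul_inv]
  · have h1 : g⁻¹ ^ t ∉ Z := by
      rw [inv_pow]
      exact fun h2 => h (Z.inv_mem_iff.1 h2)
    rw [ZLM_neg h, ZLM_neg h1, map_one]
    exact ⟨rfl, mul_one 1⟩

theorem ZLM_two {Z : Subgroup G} {t : ℕ} (ν ν' : Z →* ℂˣ) (g : G) :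
    lam Z t (ν * ν') g = lam Z t ν g * lam Z t ν' g := by
  by_cases h : g ^ t ∈ Z
  · rw [ZLM_pos h, ZLM_pos h, ZLM_pos h, MonoidHom.mul_apply, Units.val_mul]
  · rw [ZLM_neg h, ZLM_neg h, ZLM_neg h, mul_one]

theorem ZLM_triv {Z : Subgroup G} {t : ℕ} (g : G) : lam Z t (1 : Z →* ℂˣ) g = 1 := by
  by_cases h : g ^ t ∈ Z
  · rw [ZLM_pos h, MonoidHom.one_apply, Units.val_one]
  · exact ZLM_neg h

theorem ZLM_three {Z : Subgroup G} {t : ℕ} (ν : Z →* ℂˣ) {c : G} (hc : c ∈ cz Z) (g : G) :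
    lam Z t ν (c * g * c⁻¹) = lam Z t ν g := by
  have hfix : ∀ d ∈ cz Z, ∀ y ∈ Z, d * y * d⁻¹ = y := by
    intro d hd y hy
    have h1 := Subgroup.mem_centralizer_iff.1 hd y hy
    rw [← h1]
    group
  by_cases h : g ^ t ∈ Z
  · refine ZLM_congr ?_
    rw [conj_pow, hfix c hc _ h]
  · have h1 : (c * g * c⁻¹) ^ t ∉ Z := by
      intro h2
      rw [conj_pow] at h2
      have h3 := hfix c⁻¹ ((cz Z).inv_mem hc) _ h2
      rw [inv_inv] at h3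
      have h4 : c⁻¹ * (c * g ^ t * c⁻¹) * c = g ^ t := by group
      rw [h4] at h3
      exact h (by rw [h3]; exact h2)
    rw [ZLM_neg h, ZLM_neg h1]

/-- the conjugate character of `Z` -/
def ZLM_cj {Z : Subgroup G} (ν : Z →* ℂˣ) {n : G} (hn : n ∈ nz Z) : Z →* ℂˣ where
  toFun y := ν ⟨n⁻¹ * y * n, by
    have h := (Subgroup.mem_normalizer_iff.1 hn (n⁻¹ * y * n)).2
    refine h ?_
    have h1 : n * (n⁻¹ * (y : G) * n) * n⁻¹ = y := by group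
    rw [h1]
    exact y.2⟩
  map_one' := by
    rw [← map_one ν]
    congr 1
    apply Subtype.ext
    simp
  map_mul' y y' := by
    rw [← map_mul]
    congr 1
    apply Subtype.ext
    simp only [Subgroup.coe_mul]
    group

theorem ZLM_cj_apply {Z : Subgroup G} (ν : Z →* ℂˣ) {n : G} (hn : n ∈ nz Z) (y : G) (hy : y ∈ Z)
    (hy' : n⁻¹ * y * n ∈ Z) : ZLM_cj ν hn ⟨y, hy⟩ = ν ⟨n⁻¹ * y * n, hy'⟩ := rfl

theorem ZLM_inz {Z : Subgroup G} {n : G} (hn : n ∈ nz Z) (y : G) : n⁻¹ * y * n ∈ Z ↔ y ∈ Z := by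
  have h := Subgroup.mem_normalizer_iff.1 hn (n⁻¹ * y * n)
  have h1 : n * (n⁻¹ * y * n) * n⁻¹ = y := by group
  rw [h1] at h
  exact h

theorem ZLM_pc (n g : G) (t : ℕ) : (n⁻¹ * g * n) ^ t = n⁻¹ * g ^ t * n := by
  have h := conj_pow (a := n⁻¹) (b := g) (i := t)
  rwa [inv_inv] at h

theorem ZLM_four {Z : Subgroup G} {t : ℕ} (ν : Z →* ℂˣ) {n : G} (hn : n ∈ nz Z) (g : G) :
    lam Z t (ZLM_cj ν hn) g = lam Z t ν (n⁻¹ * g * n) := by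
  by_cases h : g ^ t ∈ Z
  · have h1 : n⁻¹ * g ^ t * n ∈ Z := (ZLM_inz hn _).2 h
    rw [ZLM_pos h, ZLM_cj_apply ν hn _ h h1, ZLM_val ⟨n⁻¹ * g ^ t * n, h1⟩ (ZLM_pc n g t)]
  · have h1 : (n⁻¹ * g * n) ^ t ∉ Z := by
      rw [ZLM_pc, ZLM_inz hn]
      exact h
    rw [ZLM_neg h, ZLM_neg h1]

theorem ZLM_int [Finite G] {Z : Subgroup G} {t : ℕ} (ν : Z →* ℂˣ) (g : G) : IsIntegral ℤ (lam Z t ν g) := by
  by_cases h : g ^ t ∈ Z
  · rw [ZLM_pos h]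
    refine IsIntegral.of_pow (n := Nat.card Z) Nat.card_pos ?_
    rw [ZLM_root]
    exact isIntegral_one
  · rw [ZLM_neg h]
    exact isIntegral_one

theorem ZLM_seven [Finite G] {Z : Subgroup G} {t : ℕ} (ν : Z →* ℂˣ) {s : ℕ} (hs : s.Coprime (Nat.card G)) (g : G) :
    lam Z t ν (g ^ s) = lam Z t ν g ^ s := by
  by_cases h : g ^ t ∈ Z
  · rw [ZLM_val (⟨g ^ t, h⟩ ^ s : Z) (by rw [Subgroup.coe_pow, ← pow_mul, ← pow_mul, mul_comm]), ZLM_pos h, map_pow,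
      Units.val_pow_eq_pow_val]
  · have h1 : (g ^ s) ^ t ∉ Z := by
      intro h2
      rw [← pow_mul, mul_comm, pow_mul] at h2
      have h3 : s.Coprime (orderOf (g ^ t)) := Nat.Coprime.coprime_dvd_right (orderOf_dvd_natCard (g ^ t)) hs
      obtain ⟨m, hm⟩ := exists_pow_eq_self_of_coprime h3
      exact h (by rw [← hm]; exact Z.pow_mem h2 m)
    rw [ZLM_neg h, ZLM_neg h1, one_pow]

end

theorem ZLM : ZLM_stmt := by
  intro p e t hp G _ _ hT Z ν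
  refine ⟨fun g => ZLM_one ν g, ⟨fun ν' g => ZLM_two ν ν' g, fun g => ZLM_triv g⟩, fun c hc g => ZLM_three ν hc g, ?_, ?_,
    fun g => ZLM_int ν g, fun s hs g => ZLM_seven ν hs g⟩
  · intro n hn
    refine ⟨ZLM_cj ν hn, fun y hy hy' => ZLM_cj_apply ν hn y hy hy', fun g => ZLM_four ν hn g, fun θ => ?_⟩
    funext g
    rw [cjF_apply]
    unfold st
    rw [cjF_apply, ZLM_four]
  · refine ⟨fun v hv => ?_, fun u v hu hv huv => ?_⟩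
    · have h1 : v ^ t = (1 : Z) := by rw [hT.re v hv]; rfl
      rw [ZLM_val (1 : Z) h1, map_one, Units.val_one]
    · have h1 : (u * v) ^ t = u ^ t := by
        have h2 : Commute u v := huv
        rw [h2.mul_pow, hT.re v hv, mul_one]
      exact ⟨ZLM_congr h1, h1.trans (hT.pe u hu)⟩

end Pool.Agent.ND
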