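import Pool.Agent.helper37.ND.SpecP

set_option autoImplicit false

namespace Pool.Agent.ND

open Pool.Agent.helper58.DC Pool.Agent.DI Pool.Agent.GR

theorem BLA_orbit (Γ X : Type) [Group Γ] [Finite Γ] [Fintype X] [DecidableEq X] [MulAction Γ X]
    (w : X → ℂ) (hw : ∀ (g : Γ) (x : X), w (g • x) = w x) (x0 : X) (s : Finset X)
    (hs : ∀ x, x ∈ s ↔ x ∈ MulAction.orbit Γ x0) :
    ∑ x ∈ s, (Nat.card (MulAction.stabilizer Γ x) : ℂ) * w x = (Nat.card Γ : ℂ) * w x0 := by
  have h1 : ∀ x ∈ s, (Nat.card (MulAction.stabilizer Γ x) : ℂ) * w x =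
      (Nat.card (MulAction.stabilizer Γ x0) : ℂ) * w x0 := by
    intro x hx
    have hx' := (hs x).mp hx
    have h2 : Nat.card (MulAction.stabilizer Γ x) = Nat.card (MulAction.stabilizer Γ x0) :=
      Nat.card_congr (MulAction.stabilizerEquivStabilizerOfOrbitRel
        (MulAction.orbitRel_apply.mpr hx')).toEquiv
    obtain ⟨g, hg⟩ := hx'
    have h3 : w x = w x0 := by
      rw [← hg]
      exact hw g x0
    rw [h2, h3]
  rw [Finset.sum_congr rfl h1, Finset.sum_const, nsmul_eq_mul]
  have h4 : Nat.card (MulAction.orbit Γ x0) = s.card :=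
    Nat.subtype_card s (fun x => hs x)
  have h5 : Nat.card (MulAction.orbit Γ x0) * Nat.card (MulAction.stabilizer Γ x0) = Nat.card Γ := by
    rw [← Nat.card_prod]
    exact Nat.card_congr (MulAction.orbitProdStabilizerEquivGroup Γ x0)
  rw [← h4, ← mul_assoc, ← h5]
  push_cast
  ring

theorem BLA : BLA_stmt := by
  classical
  intro p M hS Γ X _ _ _ _ w hw hI
  haveI : Fintype X := Fintype.ofFinite X
  haveI : Fintype (MulAction.orbitRel.Quotient Γ X) := Fintype.ofFinite _
  have hΓ : (Nat.card Γ : ℂ) ≠ 0 := by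
    exact_mod_cast (Nat.card_pos (α := Γ)).ne'
  rw [finsum_eq_sum_of_fintype]
  have h1 := Finset.sum_fiberwise (s := (Finset.univ : Finset X))
    (g := fun x => (Quotient.mk'' x : MulAction.orbitRel.Quotient Γ X))
    (f := fun x => (Nat.card (MulAction.stabilizer Γ x) : ℂ) * w x)
  have h2 : ∀ ω : MulAction.orbitRel.Quotient Γ X,
      ∑ x ∈ (Finset.univ : Finset X) with
        (Quotient.mk'' x : MulAction.orbitRel.Quotient Γ X) = ω,
        (Nat.card (MulAction.stabilizer Γ x) : ℂ) * w x = (Nat.card Γ : ℂ) * w ω.out := by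
    intro ω
    refine BLA_orbit Γ X w hw ω.out _ fun x => ?_
    rw [Finset.mem_filter]
    have hω : (Quotient.mk'' ω.out : MulAction.orbitRel.Quotient Γ X) = ω := Quotient.out_eq' ω
    constructor
    · rintro ⟨-, h⟩
      rw [← hω] at h
      exact MulAction.orbitRel_apply.mp (Quotient.exact' h)
    · intro h
      refine ⟨Finset.mem_univ x, ?_⟩
      rw [← hω]
      exact Quotient.sound' (MulAction.orbitRel_apply.mpr h)
  rw [← h1, Finset.sum_congr rfl fun ω _ => h2 ω, ← Finset.mul_sum, ← mul_assoc,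
    inv_mul_cancel₀ hΓ, one_mul]
  exact IntAt.sum hS _ fun ω _ => hI _

end Pool.Agent.ND
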